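import Pool.Agent.R360.NP.Final

/-!
# Positive inertia at least `c (n⁻)^(5/2)`

Vertices: `(ZMod N)^5`.  Relations between two vertices `x`, `y`:
`a, b, c` : agreement in the first, second, third coordinate,
`d, e, f` : agreement in the fourth, fifth coordinate, in the sum of the last two.
Adjacency kernel `a + b + c - ab - ac - bc + abc - ad - be - cf + def + abcdef`.
-/

set_option autoImplicit false

namespace Pool.Agent.K9h60.Inertia

open Pool.Agent.R360.NP

variable {V W : Type}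

lemma dl_pair (x y : V) (z w : W) : dl (x, z) (y, w) = dl x y * dl z w := by
  by_cases h1 : x = y <;> by_cases h2 : z = w <;> simp [dl, h1, h2]

/-- the vertex set -/
abbrev Vx (N : ℕ) : Type := ZMod N × ZMod N × ZMod N × ZMod N × ZMod N

variable {N : ℕ}

/-- the part with many coordinates -/
noncomputable def Pk (x y : Vx N) : ℝ :=
  dl x.1 y.1 + dl x.2.1 y.2.1 + dl x.2.2.1 y.2.2.1 +
    dl (x.1, x.2.1, x.2.2.1) (y.1, y.2.1, y.2.2.1) +
    dl (x.2.2.2.1, x.2.2.2.2) (y.2.2.2.1, y.2.2.2.2)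

/-- the part with few coordinates -/
noncomputable def Mk (x y : Vx N) : ℝ :=
  dl (x.1, x.2.1) (y.1, y.2.1) + dl (x.1, x.2.2.1) (y.1, y.2.2.1) +
    dl (x.2.1, x.2.2.1) (y.2.1, y.2.2.1) + dl (x.1, x.2.2.2.1) (y.1, y.2.2.2.1) +
    dl (x.2.1, x.2.2.2.2) (y.2.1, y.2.2.2.2) +
    dl (x.2.2.1, x.2.2.2.1 + x.2.2.2.2) (y.2.2.1, y.2.2.2.1 + y.2.2.2.2)

/-- the adjacency kernel -/
noncomputable def qk (x y : Vx N) : ℝ := Pk x y + dl x y - Mk x y

lemma grP [NeZero N] : Gr (N + N + N + N ^ 3 + N ^ 2) (Pk (N := N)) := by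
  have c1 : Fintype.card (ZMod N) = N := ZMod.card N
  have h1 := (Gr.delta (V := ZMod N)).comp (fun x : Vx N => x.1)
  have h2 := (Gr.delta (V := ZMod N)).comp (fun x : Vx N => x.2.1)
  have h3 := (Gr.delta (V := ZMod N)).comp (fun x : Vx N => x.2.2.1)
  have h4 := (Gr.delta (V := ZMod N × ZMod N × ZMod N)).comp
    (fun x : Vx N => (x.1, x.2.1, x.2.2.1))
  have h5 := (Gr.delta (V := ZMod N × ZMod N)).comp (fun x : Vx N => (x.2.2.2.1, x.2.2.2.2))
  rw [c1] at h1 h2 h3
  simp only [Fintype.card_prod, c1] at h4 h5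
  refine (((((h1.add h2).add h3).add h4).add h5)).mono ?_
  apply le_of_eq
  ring

lemma grM [NeZero N] : Gr (6 * N ^ 2) (Mk (N := N)) := by
  have c1 : Fintype.card (ZMod N) = N := ZMod.card N
  have h1 := (Gr.delta (V := ZMod N × ZMod N)).comp (fun x : Vx N => (x.1, x.2.1))
  have h2 := (Gr.delta (V := ZMod N × ZMod N)).comp (fun x : Vx N => (x.1, x.2.2.1))
  have h3 := (Gr.delta (V := ZMod N × ZMod N)).comp (fun x : Vx N => (x.2.1, x.2.2.1))
  have h4 := (Gr.delta (V := ZMod N × ZMod N)).comp (fun x : Vx N => (x.1, x.2.2.2.1))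
  have h5 := (Gr.delta (V := ZMod N × ZMod N)).comp (fun x : Vx N => (x.2.1, x.2.2.2.2))
  have h6 := (Gr.delta (V := ZMod N × ZMod N)).comp
    (fun x : Vx N => (x.2.2.1, x.2.2.2.1 + x.2.2.2.2))
  simp only [Fintype.card_prod, c1] at h1 h2 h3 h4 h5 h6
  refine ((((((h1.add h2).add h3).add h4).add h5).add h6)).mono ?_
  apply le_of_eq
  ring

lemma qk01 (x y : Vx N) : qk x y = 0 ∨ qk x y = 1 := by
  obtain ⟨x1, x2, x3, x4, x5⟩ := x
  obtain ⟨y1, y2, y3, y4, y5⟩ := y
  simp only [qk, Pk, Mk, dl_pair]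
  by_cases h1 : x1 = y1 <;> by_cases h2 : x2 = y2 <;> by_cases h3 : x3 = y3 <;>
    by_cases h4 : x4 = y4 <;> by_cases h5 : x5 = y5
  all_goals
    first
    | (have h6 : x4 + x5 = y4 + y5 := by rw [h4, h5]
       simp only [dl, h1, h2, h3, h4, h5, if_true, if_false]
       norm_num)
    | (have h6 : ¬ (x4 + x5 = y4 + y5) := by
         rw [h4]; intro h; exact h5 (add_left_cancel h)
       simp only [dl, h1, h2, h3, h4, h5, if_true, if_false] at h6 ⊢
       simp only [h6, if_false]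
       norm_num)
    | (have h6 : ¬ (x4 + x5 = y4 + y5) := by
         rw [h5]; intro h; exact h4 (add_right_cancel h)
       simp only [dl, h1, h2, h3, h4, h5, if_true, if_false] at h6 ⊢
       simp only [h6, if_false]
       norm_num)
    | (by_cases h6 : x4 + x5 = y4 + y5 <;>
         simp only [dl, h1, h2, h3, h4, h5, h6, if_true, if_false] <;> norm_num)

lemma qk_self (x : Vx N) : qk x x = 0 := by
  simp only [qk, Pk, Mk, dl]
  norm_num

end Pool.Agent.K9h60.Inertia
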