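import Pool.Agent.K9h60.Inertia.FiveHalves

set_option autoImplicit false

namespace Pool.Agent.K9h60.Inertia

open Pool.Agent.R360.NP

open Classical in
/-- graphs from kernels `P + identity - M` -/
lemma graph_of_kernel {V : Type} [Fintype V] {n p r : ℕ} {q P M : V → V → ℝ}
    (hcard : Fintype.card V = n) (h01 : ∀ x y, q x y = 0 ∨ q x y = 1) (hdiag : ∀ x, q x x = 0)
    (hP : Gr p P) (hM : Gr r M) (hq : ∀ x y, q x y = P x y + dl x y - M x y) :
    ∃ G : SimpleGraph (Fin n), nneg G ≤ r ∧ n ≤ npos G + r := by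
  let e : Fin n ≃ V := (Fintype.equivFinOfCardEq hcard).symm
  have hPsymm : ∀ {r : ℕ} {X : V → V → ℝ}, Gr r X → ∀ x y, X x y = X y x := by
    intro r X hX x y
    obtain ⟨κ, _, ν, _, hν⟩ := hX
    rw [hν, hν]
    exact Finset.sum_congr rfl fun j _ => mul_comm _ _
  have hdlsymm : ∀ x y : V, dl x y = dl y x := by
    intro x y
    by_cases hxy : x = y
    · rw [hxy]
    · rw [dl_ne hxy, dl_ne (Ne.symm hxy)]
  have hqsymm : ∀ x y, q x y = q y x := by
    intro x y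
    rw [hq, hq, hPsymm hP x y, hPsymm hM x y, hdlsymm x y]
  let G : SimpleGraph (Fin n) :=
    { Adj := fun x y => q (e x) (e y) = 1
      symm := ⟨fun x y hxy => by
        show q (e y) (e x) = 1
        rw [hqsymm]; exact hxy⟩
      loopless := ⟨fun x hx => by
        have h0 : q (e x) (e x) = 1 := hx
        rw [hdiag] at h0; norm_num at h0⟩ }
  have hA : (G.adjMatrix ℝ).IsHermitian := G.isHermitian_adjMatrix ℝ
  have hent : ∀ x y, G.adjMatrix ℝ x y = P (e x) (e y) + dl x y - M (e x) (e y) := by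
    intro x y
    have hd : dl x y = dl (e x) (e y) := by
      by_cases hxy : x = y
      · rw [hxy, dl_eq rfl, dl_eq rfl]
      · rw [dl_ne hxy, dl_ne (fun hc => hxy (e.injective hc))]
    rw [hd, ← hq, SimpleGraph.adjMatrix_apply]
    by_cases hadj : q (e x) (e y) = 1
    · rw [if_pos hadj, hadj]
    · rw [if_neg hadj]
      rcases h01 (e x) (e y) with h0 | h0
      · exact h0.symm
      · exact absurd h0 hadj
  have hin := inertia (G.adjMatrix ℝ) hA _ _ (hP.comp e) (hM.comp e) hent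
  refine ⟨G, ?_, ?_⟩
  · rw [nneg_eq G hA]
    refine le_trans (Finset.card_le_card ?_) hin
    intro i hi
    rw [Finset.mem_filter] at hi ⊢
    exact ⟨hi.1, hi.2.le⟩
  · rw [npos_eq G hA]
    have hsum : (Finset.univ.filter (fun i => 0 < hA.eigenvalues i)).card +
        (Finset.univ.filter (fun i => hA.eigenvalues i ≤ 0)).card = n := by
      have := Finset.card_filter_add_card_filter_not (s := (Finset.univ : Finset (Fin n)))
        (fun i => 0 < hA.eigenvalues i)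
      simp only [not_lt] at this
      rw [this, Finset.card_univ, Fintype.card_fin]
    omega

/-- the graphs -/
theorem graphs (N : ℕ) (hN : 1 ≤ N) :
    ∃ G : SimpleGraph (Fin (N ^ 5)), nneg G ≤ 6 * N ^ 2 ∧ N ^ 5 ≤ npos G + 6 * N ^ 2 := by
  haveI : NeZero N := ⟨by omega⟩
  refine graph_of_kernel (V := Vx N) ?_ qk01 qk_self grP grM (fun x y => rfl)
  simp only [Fintype.card_prod, ZMod.card]
  ring

/-- the constant `1/200` -/
theorem attained (B : ℝ) : ∃ (n : ℕ) (G : SimpleGraph (Fin n)), B < npos G ∧ 0 < nneg G ∧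
    (nneg G : ℝ) ^ (5 / 2 : ℝ) ≤ 100 * npos G := by
  obtain ⟨N0, hN0⟩ := exists_nat_gt B
  set N : ℕ := N0 + 10 with hN
  obtain ⟨G, h1, h2⟩ := graphs N (by omega)
  have hN10 : (10 : ℝ) ≤ N := by rw [hN]; push_cast; linarith [(Nat.cast_nonneg N0 : (0:ℝ) ≤ N0)]
  have hpos : (0 : ℝ) < N := by linarith
  have h1' : (nneg G : ℝ) ≤ 6 * (N : ℝ) ^ 2 := by exact_mod_cast h1
  have h2' : (N : ℝ) ^ 5 ≤ npos G + 6 * (N : ℝ) ^ 2 := by exact_mod_cast h2
  have hN3 : (1000 : ℝ) ≤ (N : ℝ) ^ 3 := by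
    calc (1000 : ℝ) = 10 ^ 3 := by norm_num
      _ ≤ (N : ℝ) ^ 3 := pow_le_pow_left₀ (by norm_num) hN10 3
  have hN5 : 1000 * (N : ℝ) ^ 2 ≤ (N : ℝ) ^ 5 := by
    have : (N : ℝ) ^ 5 = (N : ℝ) ^ 3 * (N : ℝ) ^ 2 := by ring
    rw [this]
    exact mul_le_mul_of_nonneg_right hN3 (by positivity)
  have hnp : (994 / 1000 : ℝ) * (N : ℝ) ^ 5 ≤ npos G := by linarith
  have hB : B < npos G := by
    have h3 : (N : ℝ) ≤ (N : ℝ) ^ 5 / 10 := by
      have h4 : (N : ℝ) ^ 5 = (N : ℝ) * (N : ℝ) ^ 4 := by ring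
      have h5 : (10 : ℝ) ≤ (N : ℝ) ^ 4 := by
        calc (10 : ℝ) ≤ 10 ^ 4 := by norm_num
          _ ≤ (N : ℝ) ^ 4 := pow_le_pow_left₀ (by norm_num) hN10 4
      rw [h4]; nlinarith
    have h6 : B < N := by rw [hN]; push_cast; linarith
    have h7 : (0 : ℝ) ≤ (N : ℝ) ^ 5 := by positivity
    linarith
  refine ⟨N ^ 5, G, hB, ?_, ?_⟩
  · by_contra h0
    have h0' : nneg G = 0 := by omega
    have h8 := npos_zero G h0'
    rw [h8] at hnp
    have : (0 : ℝ) < (N : ℝ) ^ 5 := by positivity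
    rw [Nat.cast_zero] at hnp
    linarith
  · have h9 : (nneg G : ℝ) ^ (5 / 2 : ℝ) ≤ (6 * (N : ℝ) ^ 2) ^ (5 / 2 : ℝ) :=
      Real.rpow_le_rpow (Nat.cast_nonneg _) h1' (by norm_num)
    have h10 : (6 * (N : ℝ) ^ 2) ^ (5 / 2 : ℝ) = (6 : ℝ) ^ (5 / 2 : ℝ) * (N : ℝ) ^ 5 := by
      rw [Real.mul_rpow (by norm_num) (by positivity)]
      congr 1
      rw [← Real.rpow_natCast, ← Real.rpow_mul hpos.le, ← Real.rpow_natCast]
      norm_num
    have h11 : (6 : ℝ) ^ (5 / 2 : ℝ) ≤ 90 := by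
      have h12 : ((6 : ℝ) ^ (5 / 2 : ℝ)) ^ 2 = 7776 := by
        rw [← Real.rpow_natCast, ← Real.rpow_mul (by norm_num)]
        norm_num
      have h13 : (0 : ℝ) ≤ (6 : ℝ) ^ (5 / 2 : ℝ) := by positivity
      nlinarith
    have h14 : (0 : ℝ) ≤ (N : ℝ) ^ 5 := by positivity
    calc (nneg G : ℝ) ^ (5 / 2 : ℝ) ≤ (6 : ℝ) ^ (5 / 2 : ℝ) * (N : ℝ) ^ 5 := h9.trans_eq h10
      _ ≤ 90 * (N : ℝ) ^ 5 := mul_le_mul_of_nonneg_right h11 h14
      _ ≤ 100 * npos G := by linarith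

/-- every exponent below `5/2` fails -/
theorem below (e : ℝ) (he : e < 5 / 2) (C : ℝ) :
    ∃ (n : ℕ) (G : SimpleGraph (Fin n)), 0 < nneg G ∧ C * (nneg G : ℝ) ^ e < npos G := by
  set t : ℝ := max e 1 with ht
  have ht1 : 1 ≤ t := le_max_right _ _
  have hte : e ≤ t := le_max_left _ _
  have ht2 : t < 5 / 2 := max_lt he (by norm_num)
  -- `x ^ t` is `o(x ^ (5/2))`
  have hgap : 0 < (5 / 2 : ℝ) - t := by linarith
  have h1 := (tendsto_rpow_atTop hgap)
  obtain ⟨X, hX⟩ := Filter.eventually_atTop.1 (h1.eventually_gt_atTop (100 * |C| + 1))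
  set Y : ℝ := max X 1 with hY
  obtain ⟨n, G, hB, hpos, hG⟩ := attained (|C| * Y ^ t)
  refine ⟨n, G, hpos, ?_⟩
  have hx1 : (1 : ℝ) ≤ nneg G := by exact_mod_cast hpos
  have hCe : C * (nneg G : ℝ) ^ e ≤ |C| * (nneg G : ℝ) ^ t := by
    have h0 : 0 ≤ (nneg G : ℝ) ^ e := Real.rpow_nonneg (Nat.cast_nonneg _) _
    calc C * (nneg G : ℝ) ^ e ≤ |C| * (nneg G : ℝ) ^ e :=
          mul_le_mul_of_nonneg_right (le_abs_self C) h0
      _ ≤ |C| * (nneg G : ℝ) ^ t :=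
          mul_le_mul_of_nonneg_left (Real.rpow_le_rpow_of_exponent_le hx1 hte) (abs_nonneg C)
  refine lt_of_le_of_lt hCe ?_
  rcases le_total (nneg G : ℝ) Y with hle | hle
  · refine lt_of_le_of_lt ?_ hB
    exact mul_le_mul_of_nonneg_left (Real.rpow_le_rpow (by linarith) hle (by linarith))
      (abs_nonneg C)
  · have hXx : X ≤ nneg G := le_trans (le_max_left _ _) hle
    have h2 := hX _ hXx
    have hxpos : (0 : ℝ) < nneg G := by linarith
    have h3 : (nneg G : ℝ) ^ (5 / 2 : ℝ) = (nneg G : ℝ) ^ ((5 / 2 : ℝ) - t) * (nneg G : ℝ) ^ t := by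
      rw [← Real.rpow_add hxpos]; congr 1; ring
    have h4 : (0 : ℝ) < (nneg G : ℝ) ^ t := Real.rpow_pos_of_pos hxpos _
    rw [h3] at hG
    have h5 : (100 * |C| + 1) * (nneg G : ℝ) ^ t < 100 * npos G :=
      lt_of_lt_of_le (mul_lt_mul_of_pos_right h2 h4) hG
    linarith

end Pool.Agent.K9h60.Inertia
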